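import Pool.Agent.H99.CE.Targets

/-!
# PFM: measurability, dependence and finiteness of the partition functions
-/

set_option autoImplicit false

open MeasureTheory ProbabilityTheory Filter Topology
open scoped ENNReal
open Pool.Agent.H95 Pool.Agent.H95.Cop Pool.Agent.H96.Cop Pool.Agent.H99.CE

namespace Pool.Agent.H17.CRX

theorem PF_meas {w : ℕ → (ℕ → ℝ) → ℝ≥0∞} (hw : WR w) (s : ℕ) : Measurable (PF w s) := by
  induction s using Nat.strong_induction_on with
  | _ s ih =>
    cases s with
    | zero =>
      have : PF w 0 = fun _ => 1 := by funext x; exact PF_zero w x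
      rw [this]; exact measurable_const
    | succ s =>
      have : PF w (s + 1) = fun x => ∑ j ∈ Finset.range (s + 1),
          w (j + 1) x * PF w (s - j) (shift (j + 1) x) := by
        funext x; exact PF_succ w s x
      rw [this]
      apply Finset.measurable_sum
      intro j _
      exact (hw (j + 1)).1.mul ((ih (s - j) (by omega)).comp (measurable_shift _))

theorem PF_dep {w : ℕ → (ℕ → ℝ) → ℝ≥0∞} (hw : WR w) (s : ℕ) : DepLt s (PF w s) := by
  induction s using Nat.strong_induction_on with
  | _ s ih =>
    intro x x' h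
    cases s with
    | zero => rw [PF_zero, PF_zero]
    | succ s =>
      rw [PF_succ, PF_succ]
      apply Finset.sum_congr rfl
      intro j hj
      rw [Finset.mem_range] at hj
      rw [(hw (j + 1)).2.1 x x' fun i hi => h i (by omega)]
      congr 1
      apply ih (s - j) (by omega)
      intro i hi
      simp only [shift_apply]
      exact h _ (by omega)

theorem PF_fin {w : ℕ → (ℕ → ℝ) → ℝ≥0∞} (hw : WR w) (s : ℕ) : ∀ x, PF w s x ≠ ∞ := by
  induction s using Nat.strong_induction_on with
  | _ s ih =>
    intro x
    cases s with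
    | zero => rw [PF_zero]; exact ENNReal.one_ne_top
    | succ s =>
      rw [PF_succ]
      refine ENNReal.sum_ne_top.2 fun j _ => ?_
      exact ENNReal.mul_ne_top ((hw (j + 1)).2.2 x) (ih (s - j) (by omega) _)

theorem BX_all {w : ℕ → (ℕ → ℝ) → ℝ≥0∞} (hw : WR w) (B j : ℕ) :
    Measurable (BX w B j) ∧ DepLt ((j + 1) * B) (BX w B j) ∧ ∀ x, BX w B j x ≠ ∞ := by
  refine ⟨?_, ?_, ?_⟩
  · unfold BX
    apply Finset.measurable_sum
    intro e _
    apply Finset.measurable_sum
    intro r _
    split_ifs
    · exact (PF_meas hw _).comp (measurable_shift _)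
    · exact measurable_const
  · intro x x' h
    unfold BX
    apply Finset.sum_congr rfl
    intro e he
    apply Finset.sum_congr rfl
    intro r hr
    rw [Finset.mem_range] at he hr
    have hk : (j + 1) * B = j * B + B := by ring
    by_cases hc : e ≤ j * B + r
    · rw [if_pos hc, if_pos hc]
      apply PF_dep hw
      intro i hi
      simp only [shift_apply]
      exact h _ (by omega)
    · rw [if_neg hc, if_neg hc]
  · intro x
    unfold BX
    refine ENNReal.sum_ne_top.2 fun e _ => ENNReal.sum_ne_top.2 fun r _ => ?_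
    split_ifs
    · exact PF_fin hw _ _
    · exact ENNReal.zero_ne_top

theorem NX_all {w : ℕ → (ℕ → ℝ) → ℝ≥0∞} (hw : WR w) (k : ℕ) (p q : Bool) (a : ℕ) :
    Measurable (NX w k p q a) ∧ DepLt ((a + 1) * k) (NX w k p q a) := by
  refine ⟨?_, ?_⟩
  · unfold NX
    apply Finset.measurable_sum
    intro e _
    apply Finset.measurable_sum
    intro r _
    by_cases hc : e ≤ a * k + r
    · simp only [if_pos hc]
      refine Measurable.mul (Measurable.mul ?_ ?_) ?_
      · cases p
        · exact measurable_const
        · exact measurable_ex 0 e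
      · exact (PF_meas hw _).comp (measurable_shift _)
      · cases q
        · exact measurable_const
        · exact measurable_ex _ _
    · simp only [if_neg hc]
      exact measurable_const
  · intro x x' h
    unfold NX
    apply Finset.sum_congr rfl
    intro e he
    apply Finset.sum_congr rfl
    intro r hr
    rw [Finset.mem_range] at he hr
    have hk : (a + 1) * k = a * k + k := by ring
    by_cases hc : e ≤ a * k + r
    · rw [if_pos hc, if_pos hc]
      rw [ex_dep 0 e x x' fun i hi => h i (by omega), ex_dep _ _ x x' h]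
      congr 2
      apply PF_dep hw
      intro i hi
      simp only [shift_apply]
      exact h _ (by omega)
    · rw [if_neg hc, if_neg hc]

theorem half_ne_top : (2⁻¹ : ℝ≥0∞) ≠ ∞ := ENNReal.inv_ne_top.2 two_ne_zero

theorem pk_fin (K : PMF ℕ) (n : ℕ) : pk K n ≠ ∞ := ENNReal.ofReal_ne_top

theorem wa_fin (K : PMF ℕ) (B n : ℕ) : wa K B n ≠ ∞ := by
  unfold wa
  split_ifs
  · exact ENNReal.mul_ne_top (pk_fin K n) half_ne_top
  · exact ENNReal.zero_ne_top

theorem wb_all (K : PMF ℕ) (n : ℕ) : Measurable (wb K n) ∧ DepLt n (wb K n) ∧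
    ∀ x, wb K n x ≠ ∞ := by
  refine ⟨?_, ?_, ?_⟩
  · unfold wb
    exact (measurable_ex 0 n).const_mul _
  · intro x x' h
    unfold wb
    rw [ex_dep 0 n x x' h]
  · intro x
    unfold wb
    exact ENNReal.mul_ne_top (ENNReal.mul_ne_top (pk_fin K n) half_ne_top)
      ENNReal.ofReal_ne_top

theorem pf_PFM : T_PFM := by
  refine ⟨fun w hw => ⟨fun s => ⟨PF_meas hw s, PF_dep hw s, PF_fin hw s⟩,
    fun B j => BX_all hw B j, fun k p q a => NX_all hw k p q a⟩, fun K => ⟨fun B n => ?_,
    fun B k n => ?_⟩⟩
  · obtain ⟨h1, h2, h3⟩ := wb_all K n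
    refine ⟨?_, ?_, ?_⟩
    · exact measurable_const.add h1
    · intro x x' h
      show wa K B n + wb K n x = wa K B n + wb K n x'
      rw [h2 x x' h]
    · intro x
      exact ENNReal.add_ne_top.2 ⟨wa_fin K B n, h3 x⟩
  · obtain ⟨h1, h2, h3⟩ := wb_all K n
    by_cases hc : n ≤ k
    · have e : w0 K B k n = fun x => wa K B n + wb K n x := by
        funext x
        unfold w0
        rw [if_pos hc]
      rw [e]
      refine ⟨measurable_const.add h1, ?_, fun x => ?_⟩
      · intro x x' h
        show wa K B n + wb K n x = wa K B n + wb K n x'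
        rw [h2 x x' h]
      · exact ENNReal.add_ne_top.2 ⟨wa_fin K B n, h3 x⟩
    · have e : w0 K B k n = fun _ => wa K B n := by
        funext x
        unfold w0
        rw [if_neg hc, add_zero]
      rw [e]
      exact ⟨measurable_const, fun _ _ _ => rfl, fun _ => wa_fin K B n⟩

end Pool.Agent.H17.CRX
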