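import Pool.Agent.H99.CE.Targets
import Pool.Agent.H55.CU.Targets
import Pool.Agent.H65.CU.UNR
import Pool.Agent.H86.CU.VBA
import Pool.Agent.H4.CU.VBP
import Pool.Agent.H63.CU.VDC
import Pool.Agent.H67.CU.VMS
import Pool.Agent.H20.CU.UDC
import Pool.Agent.H13.CU.UMS
import Pool.Agent.H4.CU.KME
import Pool.Agent.H53.CU.GAS

/-!
# VPT: pointwise bound of the neutral masses

The bound of the masses is taken from the row BS0 (H74/CU/BS0).
-/

set_option autoImplicit false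

namespace Pool.Agent.H17.CRX.VPT

open MeasureTheory ProbabilityTheory Filter Topology Pool.Agent.H95 Pool.Agent.H95.Cop
  Pool.Agent.H96.Cop Pool.Agent.H55.CU
open scoped ENNReal

private theorem ZZ_pos {α c : ℝ} {k : ℕ} (hc : 0 < c) (hk : 1 ≤ k) : 0 < ZZ α c k := by
  unfold ZZ
  have : (0 : ℝ) < k := by exact_mod_cast hk
  positivity

/-- the weight of a long excursion above the interface -/
private theorem wt_le {K : PMF ℕ} {α c : ℝ} {n0 k : ℕ} (hα : 0 < α) (hc : 0 < c)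
    (hKB : KB K α c n0) (hk : 1 ≤ k) (hn : n0 ≤ k) (j m : ℕ) (_ : 1 ≤ j) (hkm : k < m)
    (hjm : (j - 1) * k < m) : kk K m / 2 ≤ ga α j / ZZ α c k := by
  have hk0 : (0 : ℝ) < k := by exact_mod_cast hk
  have h1 := (hKB m (by omega)).2
  have hM : max (j - 1) 1 * k ≤ m := by
    rcases le_total (j - 1) 1 with h | h
    · rw [max_eq_right h, one_mul]
      exact hkm.le
    · rw [max_eq_left h]
      exact hjm.le
  have hM1 : (1 : ℝ) ≤ ((max (j - 1) 1 : ℕ) : ℝ) := by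
    exact_mod_cast le_max_right _ _
  have hMk : ((max (j - 1) 1 : ℕ) : ℝ) * k ≤ m := by exact_mod_cast hM
  have h2 : (m : ℝ) ^ (-(1 + α)) ≤ (((max (j - 1) 1 : ℕ) : ℝ) * k) ^ (-(1 + α)) :=
    Real.rpow_le_rpow_of_nonpos (by positivity) hMk (by linarith)
  have h3 : ga α j / ZZ α c k = 9 / 16 * c * (((max (j - 1) 1 : ℕ) : ℝ) * k) ^ (-(1 + α)) := by
    unfold ga ZZ
    rw [Real.mul_rpow (by positivity) (by positivity), Real.rpow_neg hk0.le (1 + α)]
    field_simp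
  rw [h3]
  have h4 := mul_le_mul_of_nonneg_left h2 (by positivity : (0 : ℝ) ≤ 9 / 16 * c)
  linarith

/-- the numbers -/
private theorem num1 {α c : ℝ} {k : ℕ} (hα : 0 < α) (hc : 0 < c) (hk : 1 ≤ k) :
    (k : ℝ) / (13 / 16 * (c / α) * (k : ℝ) ^ (-α)) / ZZ α c k = 16 / 13 * α := by
  have hk0 : (0 : ℝ) < k := by exact_mod_cast hk
  unfold ZZ
  rw [Real.rpow_neg hk0.le, Real.rpow_add hk0, Real.rpow_one]
  have := Real.rpow_pos_of_pos hk0 α
  field_simp

private theorem num2 {α c : ℝ} {k : ℕ} (hα : 0 < α) (hc : 0 < c) (hk : 1 ≤ k) (E : ℝ)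
    (hE : 0 ≤ E) : 3 * (23 * c * (k : ℝ) ^ (1 - α)) / (3 / 4 * (c / α) * (k : ℝ) ^ (-α)) ^ 2 * E /
      ZZ α c k ≤ 123 * α ^ 2 * E := by
  have hk0 : (0 : ℝ) < k := by exact_mod_cast hk
  have hp := Real.rpow_pos_of_pos hk0 α
  have h1 : 3 * (23 * c * (k : ℝ) ^ (1 - α)) / (3 / 4 * (c / α) * (k : ℝ) ^ (-α)) ^ 2 * E /
      ZZ α c k = 368 / 3 * (α ^ 2 * E) := by
    unfold ZZ
    rw [Real.rpow_neg hk0.le, Real.rpow_add hk0, Real.rpow_sub hk0, Real.rpow_one]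
    field_simp
    norm_num
    ring
  rw [h1]
  have h2 : 0 ≤ α ^ 2 * E := by positivity
  nlinarith

theorem base (hVDC : T_VDC) (hVMS : T_VMS) (hKME : T_KME) (hVBA : T_VBA)
    (hVBP : T_VBP) (hGAS : T_GAS) (K : PMF ℕ) (hK0 : K 0 = 0) (α c : ℝ) (n0 k : ℕ) (b : ℝ)
    (hα : 0 < α) (hα' : α ≤ 1 / 2 ^ 50) (hc : 0 < c) (hKB : KB K α c n0) (hk : 1 ≤ k)
    (hn : n0 ≤ k) (hnc : (n0 : ℝ) ≤ c * (k : ℝ) ^ (1 - α)) (hb : 0 ≤ b)
    (hbk : b * k ≤ 1 / 2) :
    VR (khr K k b) k 0 / ZZ α c k ≤ 2 * α ∧ ∀ a : ℕ, 1 ≤ a →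
      VR (khr K k b) k a / ZZ α c k ≤ 2 ^ 19 * (α ^ 2 * (1 + (a : ℝ)) ^ (-(1 + α))) := by
  have hα12 : α ≤ 1 / 2 ^ 12 := le_trans hα' (by norm_num)
  have hk0 : (0 : ℝ) < k := by exact_mod_cast hk
  have hZ : 0 < ZZ α c k := ZZ_pos hc hk
  have hkhr : ∀ n, 0 ≤ khr K k b n := khr_nonneg K k b
  have hk0n : ∀ n, 0 ≤ k0 K k b n := by
    intro n
    unfold k0
    split_ifs
    · exact hkhr n
    · exact le_rfl
  have hVR : ∀ (κ : ℕ → ℝ), (∀ n, 0 ≤ κ n) → ∀ a, 0 ≤ VR κ k a := by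
    intro κ hκ a
    unfold VR
    refine Finset.sum_nonneg fun e _ => Finset.sum_nonneg fun r _ => ?_
    split_ifs
    · exact uu_nonneg κ hκ _
    · exact le_rfl
  obtain ⟨hga0, -, -⟩ := hGAS α hα hα12
  have hkme := hKME K hK0 α c n0 k b hα hα12 hc hKB hk hn hnc hb hbk
  obtain ⟨hvm1, hvm2⟩ := hVMS (k0 K k b) k hk0n hk
  -- the normalised masses
  have hv0 : ∀ a, 0 ≤ VR (k0 K k b) k a / ZZ α c k := fun a => div_nonneg (hVR _ hk0n a) hZ.le
  have hv : ∀ a, 0 ≤ VR (khr K k b) k a / ZZ α c k := fun a => div_nonneg (hVR _ hkhr a) hZ.le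
  have hs0 : ∀ n, ∑ a ∈ Finset.range n, VR (k0 K k b) k a / ZZ α c k ≤ 16 / 13 * α := by
    intro n
    rw [← Finset.sum_div, ← num1 hα hc hk]
    exact div_le_div_of_nonneg_right (hvm1 _ (by positivity) (fun N => (hkme N).1) n) hZ.le
  have hp0 : ∀ a : ℕ, 1 ≤ a → VR (k0 K k b) k a / ZZ α c k ≤
      123 * α ^ 2 * Real.exp (-(a : ℝ)) := by
    intro a ha
    refine le_trans (div_le_div_of_nonneg_right (hvm2 (3 / 4 * (c / α) * (k : ℝ) ^ (-α))
      (23 * c * (k : ℝ) ^ (1 - α)) (by positivity) (fun N => (hkme N).2.1)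
      (fun N => (hkme N).2.2) a ha) hZ.le) ?_
    exact num2 hα hc hk _ (Real.exp_pos _).le
  have hren : ∀ a, VR (khr K k b) k a / ZZ α c k ≤ VR (k0 K k b) k a / ZZ α c k +
      ∑ i ∈ Finset.range (a + 1), ∑ j ∈ Finset.Icc 1 a, if i + j ≤ a then
        VR (k0 K k b) k i / ZZ α c k * ga α j * (VR (khr K k b) k (a - i - j) / ZZ α c k)
        else 0 := by
    intro a
    have h1 := hVDC K k b hk (fun j => ga α j / ZZ α c k)
      (fun j => div_nonneg (hga0 j) hZ.le)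
      (fun j m hj hkm hjm _ => wt_le hα hc hKB hk hn j m hj hkm hjm) a
    refine le_trans (div_le_div_of_nonneg_right h1 hZ.le) (le_of_eq ?_)
    rw [add_div, Finset.sum_div]
    congr 1
    refine Finset.sum_congr rfl fun i _ => ?_
    rw [Finset.sum_div]
    refine Finset.sum_congr rfl fun j _ => ?_
    split_ifs
    · field_simp
    · rw [zero_div]
  have hA := hVBA α (fun a => VR (k0 K k b) k a / ZZ α c k)
    (fun a => VR (khr K k b) k a / ZZ α c k) hα hα12 hv0 hv hs0 hren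
  have hP := hVBP α (fun a => VR (k0 K k b) k a / ZZ α c k)
    (fun a => VR (khr K k b) k a / ZZ α c k) hα hα12 hv0 hv hs0 hp0 hren
  exact ⟨hA.2, hP⟩

end Pool.Agent.H17.CRX.VPT

namespace Pool.Agent.H17.CRX

open MeasureTheory ProbabilityTheory Filter Topology
open scoped ENNReal
open Pool.Agent.H95 Pool.Agent.H95.Cop Pool.Agent.H96.Cop Pool.Agent.H99.CE

theorem Un_mono' {κ κ' : ℕ → ℝ≥0∞} (h : ∀ n, κ n ≤ κ' n) : ∀ n, Un κ n ≤ Un κ' n := by
  intro n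
  induction n using Nat.strong_induction_on with
  | _ n ih =>
    cases n with
    | zero => rw [Un, Un]
    | succ s =>
      rw [Un, Un]
      exact Finset.sum_le_sum fun j _ => mul_le_mul' (h _) (ih _ (by omega))

theorem Vn_mono' {κ κ' : ℕ → ℝ≥0∞} (h : ∀ n, κ n ≤ κ' n) (k a : ℕ) : Vn κ k a ≤ Vn κ' k a := by
  unfold Vn
  refine Finset.sum_le_sum fun e _ => Finset.sum_le_sum fun r _ => ?_
  split_ifs
  · exact Un_mono' h _
  · exact le_rfl

theorem kc_le_kh (K : PMF ℕ) (B k : ℕ) (Bd : ℝ≥0∞) (n : ℕ) : kc K B k Bd n ≤ kh K k Bd n := by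
  have hwa : wa K B n ≤ pk K n * 2⁻¹ := by
    unfold wa
    split_ifs
    · exact le_rfl
    · exact zero_le
  unfold kc kh
  split_ifs
  · rw [mul_add, mul_one, mul_add, ← mul_assoc]
    gcongr
  · rw [add_zero]
    exact hwa

theorem pf_VPT : T_VPT := by
  intro K hK0 α c δ b n1 k n0 hα hα' hc hδ hδ' hReg hk hn hnc hb hbk hn0
  have hKB : Pool.Agent.H55.CU.KB K α c n1 := by
    intro n hn
    obtain ⟨h1, h2⟩ := hReg n hn
    have h3 : 0 ≤ c * (n : ℝ) ^ (-(1 + α)) := by positivity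
    constructor
    · refine le_trans ?_ h1
      nlinarith
    · refine le_trans h2 ?_
      nlinarith
  have hGAS := Pool.Agent.H53.CU.pf_GAS
  have hVBA := Pool.Agent.H86.CU.pf_VBA hGAS
  obtain ⟨hB0, hBa⟩ := VPT.base (Pool.Agent.H63.CU.pf_VDC Pool.Agent.H20.CU.pf_UDC)
    (Pool.Agent.H67.CU.pf_VMS Pool.Agent.H13.CU.pf_UMS) Pool.Agent.H4.CU.pf_KME hVBA
    (Pool.Agent.H4.CU.pf_VBP hGAS hVBA) hGAS K hK0 α c n1 k b hα hα' hc hKB hk hn hnc hb
    (by linarith)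
  have hk0 : (0 : ℝ) < k := by exact_mod_cast hk
  have hZ : 0 < Pool.Agent.H55.CU.ZZ α c k := by
    unfold Pool.Agent.H55.CU.ZZ
    positivity
  have hexp : Real.exp (2 * b * k) ≤ 2 := by
    have h1 : Real.exp (2 * b * k) ≤ Real.exp (Real.log 2) := by
      refine Real.exp_le_exp.2 ?_
      have h2 := Real.log_two_gt_d9
      nlinarith
    rwa [Real.exp_log (by norm_num)] at h1
  have hexp0 := Real.exp_pos (2 * b * k)
  have hVR0 : ∀ a, 0 ≤ Pool.Agent.H55.CU.VR (khr K k b) k a := by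
    intro a
    unfold Pool.Agent.H55.CU.VR
    refine Finset.sum_nonneg fun e _ => Finset.sum_nonneg fun r _ => ?_
    split_ifs
    · exact uu_nonneg _ (khr_nonneg K k b) _
    · exact le_rfl
  have hkey : ∀ (a : ℕ) (q : ℝ), 2 * Pool.Agent.H55.CU.VR (khr K k b) k a ≤ q →
      Vb K n0 k b a ≤ ENNReal.ofReal q := by
    intro a q hq
    unfold Vb
    calc ENNReal.ofReal (Real.exp (2 * b * k)) *
          Vn (kc K (n0 * k) k (ENNReal.ofReal (Real.exp b))) k a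
        ≤ ENNReal.ofReal (Real.exp (2 * b * k)) *
          Vn (kh K k (ENNReal.ofReal (Real.exp b))) k a := by
          gcongr
          exact Vn_mono' (kc_le_kh K _ k _) k a
      _ = ENNReal.ofReal (Real.exp (2 * b * k) * Pool.Agent.H55.CU.VR (khr K k b) k a) := by
          rw [Pool.Agent.H65.CU.pf_UNR K k b a, ENNReal.ofReal_mul hexp0.le]
      _ ≤ ENNReal.ofReal q := by
          refine ENNReal.ofReal_le_ofReal (le_trans ?_ hq)
          exact mul_le_mul_of_nonneg_right hexp (hVR0 a)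
  constructor
  · refine hkey 0 _ ?_
    rw [div_le_iff₀ hZ] at hB0
    have h1 : (k : ℝ) ^ (1 + α) / c = Pool.Agent.H55.CU.ZZ α c k := rfl
    rw [h1]
    nlinarith
  · intro a ha
    refine hkey a _ ?_
    have h2 := hBa a ha
    rw [div_le_iff₀ hZ] at h2
    have h1 : (k : ℝ) ^ (1 + α) / c = Pool.Agent.H55.CU.ZZ α c k := rfl
    rw [h1]
    have h3 : 0 ≤ Pool.Agent.H55.CU.ZZ α c k * (α ^ 2 * (1 + (a : ℝ)) ^ (-(1 + α))) := by
      positivity
    nlinarith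

end Pool.Agent.H17.CRX
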